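import Pool.Agent.H30.BV.Targets

/-!
# Trivial lower bound for `L(s, χ)` to the right of `1` (module TL)
-/

set_option autoImplicit false

open Finset Real ArithmeticFunction
open scoped Nat

namespace Pool.Agent.H31.BV

open Pool.Agent.H30.BV

private lemma norm_lseries_le (f : ℕ → ℂ) (hf : ∀ n, ‖f n‖ ≤ 1) (s : ℂ) (hs : 1 < s.re) :
    ‖LSeries f s‖ ≤ 1 / (s.re - 1) + 1 := by
  have hterm : ∀ n : ℕ, ‖LSeries.term f s n‖ ≤ if n = 0 then 0 else 1 / (n : ℝ) ^ s.re := by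
    intro n
    rw [LSeries.norm_term_eq]
    by_cases hn : n = 0
    · simp [hn]
    · rw [if_neg hn, if_neg hn]
      have h1 : 0 < (n : ℝ) ^ s.re :=
        Real.rpow_pos_of_pos (by exact_mod_cast Nat.pos_of_ne_zero hn) _
      exact div_le_div_of_nonneg_right (hf n) h1.le
  have hsum : Summable (fun n : ℕ => if n = 0 then (0 : ℝ) else 1 / (n : ℝ) ^ s.re) := by
    refine (Real.summable_one_div_nat_rpow.2 hs).of_nonneg_of_le (fun n => ?_) (fun n => ?_)
    · split_ifs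
      · exact le_rfl
      · positivity
    · split_ifs
      · positivity
      · exact le_rfl
  have h1 : ‖LSeries f s‖ ≤ ∑' n : ℕ, (if n = 0 then (0 : ℝ) else 1 / (n : ℝ) ^ s.re) :=
    tsum_of_norm_bounded hsum.hasSum hterm
  have h2 : ∑' n : ℕ, (if n = 0 then (0 : ℝ) else 1 / (n : ℝ) ^ s.re) =
      ∑' n : ℕ, 1 / ((n : ℝ) + 1) ^ s.re := by
    rw [hsum.tsum_eq_zero_add]
    simp
  have h3 := ZetaAsymptotics.zeta_limit_aux1 hs
  have h4 : 0 ≤ ZetaAsymptotics.termTSum s.re :=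
    tsum_nonneg fun n => ZetaAsymptotics.term_nonneg _ _
  rw [h2] at h1
  have h5 : 0 ≤ s.re * ZetaAsymptotics.termTSum s.re := mul_nonneg (by linarith) h4
  linarith

theorem tl : T_TL := by
  intro q χ s _ hs hs3
  have h0 : DS (cv χ) 0 s = LSeries (fun n => χ (n : ZMod q)) s := by
    unfold DS cv
    simp
  have h1 := DirichletCharacter.LSeries.mul_mu_eq_one χ hs
  have h2 : ‖LSeries ((fun n : ℕ => χ (n : ZMod q)) * fun n : ℕ => ((ArithmeticFunction.moebius n : ℤ) : ℂ)) s‖ ≤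
      1 / (s.re - 1) + 1 := by
    refine norm_lseries_le _ (fun n => ?_) s hs
    rw [Pi.mul_apply, norm_mul]
    have h3 := χ.norm_le_one (n : ZMod q)
    have h4 : ‖((ArithmeticFunction.moebius n : ℤ) : ℂ)‖ ≤ 1 := by
      rw [Complex.norm_intCast]
      exact_mod_cast ArithmeticFunction.abs_moebius_le_one
    exact mul_le_one₀ h3 (norm_nonneg _) h4
  have h5 : 1 = ‖LSeries (fun n => χ (n : ZMod q)) s‖ *
      ‖LSeries ((fun n : ℕ => χ (n : ZMod q)) * fun n : ℕ => ((ArithmeticFunction.moebius n : ℤ) : ℂ)) s‖ := by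
    rw [← norm_mul]
    have h6 : LSeries (fun n => χ (n : ZMod q)) s * LSeries ((fun n : ℕ => χ (n : ZMod q)) * fun n : ℕ => ((ArithmeticFunction.moebius n : ℤ) : ℂ)) s = 1 := h1
    rw [h6, norm_one]
  rw [h0]
  have h7 : 0 < s.re - 1 := by linarith
  have h8 : 1 / (s.re - 1) + 1 ≤ 3 / (s.re - 1) := by
    rw [div_add_one h7.ne']
    exact div_le_div_of_nonneg_right (by linarith) h7.le
  set a := ‖LSeries (fun n => χ (n : ZMod q)) s‖ with ha
  set b := ‖LSeries ((fun n : ℕ => χ (n : ZMod q)) * fun n : ℕ => ((ArithmeticFunction.moebius n : ℤ) : ℂ)) s‖ with hb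
  have ha0 : 0 ≤ a := norm_nonneg _
  have h9 : b ≤ 3 / (s.re - 1) := h2.trans h8
  have h10 : 1 ≤ a * (3 / (s.re - 1)) := by
    calc (1 : ℝ) = a * b := h5
      _ ≤ _ := mul_le_mul_of_nonneg_left h9 ha0
  rw [div_le_iff₀ (by norm_num)]
  have h11 : a * (3 / (s.re - 1)) * (s.re - 1) = a * 3 := by
    field_simp
  nlinarith

end Pool.Agent.H31.BV
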